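import Mathlib

open MeasureTheory ProbabilityTheory
open scoped ENNReal NNReal

namespace Pool.Agent.Lib.MP_04d7a1_pr

/-- The four lattice directions. -/
def dir : Fin 4 → ℤ × ℤ := ![(1, 0), (-1, 0), (0, 1), (0, -1)]

/-- Law of the whole configuration: independently for every site of the square lattice, a
Poisson number of animals and an independent i.i.d. sequence of (uniform direction, length). -/
noncomputable def law (μ : Measure ℕ) (lam : ℝ≥0) :
    Measure (ℤ × ℤ → ℕ × (ℕ → Fin 4 × ℕ)) :=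
  Measure.infinitePi fun _ =>
    (poissonMeasure lam).prod (Measure.infinitePi fun _ => (uniformOn Set.univ).prod μ)

/-- The occupied set: union of the rays of the first `N x` animals at every site `x`. -/
def occupied (ω : ℤ × ℤ → ℕ × (ℕ → Fin 4 × ℕ)) : Set (ℤ × ℤ) :=
  {y | ∃ x, ∃ i < (ω x).1, ∃ j ≤ ((ω x).2 i).2, y = x + j • dir ((ω x).2 i).1}

/-- `S` has an infinite nearest-neighbour connected component. -/
def HasInfiniteCluster (S : Set (ℤ × ℤ)) : Prop :=
  ∃ x ∈ S, Set.Infinite
    {y | Relation.ReflTransGen (fun a b => a ∈ S ∧ b ∈ S ∧ |a.1 - b.1| + |a.2 - b.2| = 1) x y}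

/-- The critical intensity. -/
noncomputable def critical (μ : Measure ℕ) : ℝ≥0∞ :=
  ⨅ (lam : ℝ≥0) (_ : 0 < lam) (_ : 0 < law μ lam {ω | HasInfiniteCluster (occupied ω)}),
    (lam : ℝ≥0∞)

end Pool.Agent.Lib.MP_04d7a1_pr
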