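import Mathlib
import Pool.Agent.Lib.MP_04d7a1_pr.Defs

open MeasureTheory Relation

namespace Pool.Agent.Lib.MP_04d7a1_pr

abbrev V := ℤ × ℤ

def step (S : Set V) (a b : V) : Prop := a ∈ S ∧ b ∈ S ∧ |a.1 - b.1| + |a.2 - b.2| = 1

abbrev Conn (S : Set V) : V → V → Prop := ReflTransGen (step S)

lemma hasInfiniteCluster_iff (S : Set V) :
    HasInfiniteCluster S ↔ ∃ x ∈ S, Set.Infinite {y | Conn S x y} := Iff.rfl

def InBox (z : V) (r : ℤ) (y : V) : Prop := |y.1 - z.1| ≤ r ∧ |y.2 - z.2| ≤ r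

lemma step_symm {S : Set V} {a b : V} (h : step S a b) : step S b a :=
  ⟨h.2.1, h.1, by rw [abs_sub_comm b.1, abs_sub_comm b.2]; exact h.2.2⟩

lemma conn_symm {S : Set V} {a b : V} (h : Conn S a b) : Conn S b a := by
  induction h with
  | refl => exact .refl
  | tail _ h2 ih => exact .head (step_symm h2) ih

lemma conn_mono {S S' : Set V} (hS : S ⊆ S') {a b : V} (h : Conn S a b) : Conn S' a b := by
  induction h with
  | refl => exact .refl
  | tail _ h2 ih => exact .tail ih ⟨hS h2.1, hS h2.2.1, h2.2.2⟩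

lemma finite_box (z : V) (r : ℤ) : {y | InBox z r y}.Finite := by
  refine (Set.finite_Icc (z.1 - r, z.2 - r) (z.1 + r, z.2 + r)).subset ?_
  rintro y ⟨h1, h2⟩
  rw [abs_le] at h1 h2
  simp only [Set.mem_Icc, Prod.le_def]
  omega

lemma InBox.mono {z y : V} {r r' : ℤ} (h : InBox z r y) (hr : r ≤ r') : InBox z r' y :=
  ⟨h.1.trans hr, h.2.trans hr⟩

lemma InBox.step {S : Set V} {z a b : V} {r : ℤ} (h : InBox z r a) (hs : step S a b) :
    InBox z (r + 1) b := by
  obtain ⟨h1, h2⟩ := h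
  obtain ⟨-, -, h3⟩ := hs
  have := abs_nonneg (a.1 - b.1)
  have := abs_nonneg (a.2 - b.2)
  have h4 : |a.1 - b.1| ≤ 1 := by omega
  have h5 : |a.2 - b.2| ≤ 1 := by omega
  rw [abs_le] at h1 h2 h4 h5
  constructor <;> rw [abs_le] <;> omega

lemma conn_local {S : Set V} {z u v : V} {R : ℤ} (h : Conn S u v) (hu : InBox z R u)
    (hv : ¬ InBox z R v) :
    ∃ v', ¬ InBox z R v' ∧ InBox z (R + 1) v' ∧ Conn (S ∩ {y | InBox z (R + 1) y}) u v' := by
  induction h using ReflTransGen.head_induction_on with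
  | refl => exact absurd hu hv
  | @head a c hac _ ih =>
    have hc := hu.step hac
    have hs : step (S ∩ {y | InBox z (R + 1) y}) a c :=
      ⟨⟨hac.1, hu.mono (by omega)⟩, ⟨hac.2.1, hc⟩, hac.2.2⟩
    by_cases hcb : InBox z R c
    · obtain ⟨v', h1, h2, h3⟩ := ih hcb
      exact ⟨v', h1, h2, .head hs h3⟩
    · exact ⟨c, hcb, hc, .single hs⟩

/-- Crossing of the annulus around `z`. -/
def Cross (S : Set V) (z : V) (r : ℤ) : Prop :=
  ∃ u v, InBox z r u ∧ ¬ InBox z (2 * r) v ∧ Conn S u v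

lemma Cross.of_local {S S' : Set V} {z : V} {r : ℤ} (hr : 0 ≤ r) (h : Cross S z r)
    (hS : ∀ y ∈ S, InBox z (2 * r + 1) y → y ∈ S') : Cross S' z r := by
  obtain ⟨u, v, hu, hv, huv⟩ := h
  obtain ⟨v', h1, -, h3⟩ := conn_local huv (hu.mono (by omega)) hv
  exact ⟨u, v', hu, h1, conn_mono (fun y hy => hS y hy.1 hy.2) h3⟩

lemma Cross.exists_mem {S : Set V} {z : V} {r : ℤ} (hr : 0 ≤ r) (h : Cross S z r) :
    ∃ u ∈ S, InBox z r u := by
  obtain ⟨u, v, hu, hv, huv⟩ := h
  rcases huv.cases_head with rfl | ⟨c, hc, -⟩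
  · exact absurd (hu.mono (by omega)) hv
  · exact ⟨u, hc.1, hu⟩

lemma exists_cell {r : ℤ} (hr : 0 < r) (w : ℤ) : ∃ a, r * a ≤ w ∧ w < r * a + r :=
  ⟨w / r, by have := Int.mul_ediv_add_emod w r; have := Int.emod_nonneg w hr.ne'; omega,
    by have := Int.mul_ediv_add_emod w r; have := Int.emod_lt_of_pos w hr; omega⟩

lemma le_of_mul_le {r a n : ℤ} (hr : 0 < r) (h : r * a < n * r + r) : a ≤ n := by
  by_contra hc
  have : n + 1 ≤ a := by omega
  nlinarith

lemma Cross.split {S : Set V} {z : V} {r : ℤ} (hr : 0 < r) (h : Cross S z (10 * r)) :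
    ∃ a ∈ Finset.Icc ((-21, -21) : V) (21, 21), ∃ b ∈ Finset.Icc ((-21, -21) : V) (21, 21),
      (10 ≤ |a.1 - b.1| ∨ 10 ≤ |a.2 - b.2|) ∧ Cross S (z + r • a) r ∧ Cross S (z + r • b) r := by
  obtain ⟨u, v0, hu, hv0, huv0⟩ := h
  obtain ⟨v, hv, hv', huv'⟩ := conn_local huv0 (hu.mono (by omega)) hv0
  have huv : Conn S u v := conn_mono Set.inter_subset_left huv'
  obtain ⟨a1, ha1, ha1'⟩ := exists_cell hr (u.1 - z.1)
  obtain ⟨a2, ha2, ha2'⟩ := exists_cell hr (u.2 - z.2)
  obtain ⟨b1, hb1, hb1'⟩ := exists_cell hr (v.1 - z.1)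
  obtain ⟨b2, hb2, hb2'⟩ := exists_cell hr (v.2 - z.2)
  obtain ⟨hu1, hu2⟩ := hu
  obtain ⟨hv1, hv2⟩ := hv'
  rw [abs_le] at hu1 hu2 hv1 hv2
  have A1 : a1 ≤ 10 := le_of_mul_le hr (by linarith)
  have A2 : a2 ≤ 10 := le_of_mul_le hr (by linarith)
  have A1' : -a1 ≤ 10 := le_of_mul_le hr (by linarith)
  have A2' : -a2 ≤ 10 := le_of_mul_le hr (by linarith)
  have B1 : b1 ≤ 21 := le_of_mul_le hr (by linarith)
  have B2 : b2 ≤ 21 := le_of_mul_le hr (by linarith)
  have B1' : -b1 ≤ 21 := le_of_mul_le hr (by linarith)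
  have B2' : -b2 ≤ 21 := le_of_mul_le hr (by linarith)
  have hv3 : 20 * r < v.1 - z.1 ∨ v.1 - z.1 < -(20 * r) ∨ 20 * r < v.2 - z.2 ∨
      v.2 - z.2 < -(20 * r) := by
    by_contra hc
    apply hv
    constructor <;> rw [abs_le] <;> omega
  refine ⟨(a1, a2), ?_, (b1, b2), ?_, ?_, ⟨u, v, ?_, ?_, huv⟩, ⟨v, u, ?_, ?_, conn_symm huv⟩⟩
  · simp only [Finset.mem_Icc, Prod.le_def]; omega
  · simp only [Finset.mem_Icc, Prod.le_def]; omega
  · simp only [le_abs]
    rcases hv3 with h | h | h | h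
    · have : -b1 ≤ -20 := le_of_mul_le hr (by linarith)
      omega
    · have : b1 ≤ -20 := le_of_mul_le hr (by linarith)
      omega
    · have : -b2 ≤ -20 := le_of_mul_le hr (by linarith)
      omega
    · have : b2 ≤ -20 := le_of_mul_le hr (by linarith)
      omega
  · simp only [InBox, Prod.fst_add, Prod.snd_add, Prod.smul_mk, smul_eq_mul, abs_le]
    omega
  · simp only [InBox, Prod.fst_add, Prod.snd_add, Prod.smul_mk, smul_eq_mul, abs_le]
    omega
  · simp only [InBox, Prod.fst_add, Prod.snd_add, Prod.smul_mk, smul_eq_mul, abs_le]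
    omega
  · simp only [InBox, Prod.fst_add, Prod.snd_add, Prod.smul_mk, smul_eq_mul, abs_le]
    omega

lemma cross_of_infinite {S : Set V} {x z : V} {r : ℤ} (hx : InBox z r x)
    (h : Set.Infinite {y | Conn S x y}) : Cross S z r := by
  obtain ⟨v, hv, hv'⟩ := h.exists_notMem_finite (finite_box z (2 * r))
  exact ⟨x, v, hx, hv', hv⟩

lemma hasInfiniteCluster_of_infinite {S : Set V} {x : V} (h : Set.Infinite {y | Conn S x y}) :
    HasInfiniteCluster S := by
  refine ⟨x, ?_, h⟩
  obtain ⟨v, hv, hv'⟩ := h.exists_notMem_finite (Set.finite_singleton x)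
  rcases (show Conn S x v from hv).cases_head with rfl | ⟨c, hc, -⟩
  · exact absurd rfl hv'
  · exact hc.1

lemma HasInfiniteCluster.of_finite_diff {S S' : Set V} (h : HasInfiniteCluster S)
    (hf : (S \ S').Finite) : HasInfiniteCluster S' := by
  by_contra hc
  have hfin : ∀ x, Set.Finite {y | Conn S' x y} := fun x => by
    by_contra hx
    exact hc (hasInfiniteCluster_of_infinite hx)
  obtain ⟨x, -, hx⟩ := h
  apply hx
  refine Set.Finite.subset ((hfin x).union (hf.biUnion fun g _ =>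
    (finite_box g 1).biUnion fun w _ => hfin w)) ?_
  intro y hy
  have hy' : Conn S x y := hy
  induction hy' with
  | refl => exact Or.inl ReflTransGen.refl
  | @tail b c hb hbc ih =>
    have ih := ih hb
    by_cases hc' : c ∈ S'
    · by_cases hb' : b ∈ S'
      · have hs : step S' b c := ⟨hb', hc', hbc.2.2⟩
        rcases ih with ih | ih
        · exact Or.inl (ReflTransGen.tail ih hs)
        · simp only [Set.mem_iUnion] at ih
          obtain ⟨g, hg, w, hw, hwb⟩ := ih
          refine Or.inr ?_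
          simp only [Set.mem_iUnion]
          exact ⟨g, hg, w, hw, ReflTransGen.tail hwb hs⟩
      · refine Or.inr ?_
        simp only [Set.mem_iUnion]
        refine ⟨b, ⟨hbc.1, hb'⟩, c, ?_, ReflTransGen.refl⟩
        have : InBox b 0 b := by simp [InBox]
        simpa using this.step hbc
    · refine Or.inr ?_
      simp only [Set.mem_iUnion]
      exact ⟨c, ⟨hbc.2.1, hc'⟩, c, by simp [InBox], ReflTransGen.refl⟩

lemma infinite_iff_unbounded (T : Set V) :
    T.Infinite ↔ ∀ n : ℕ, ∃ y, y ∈ T ∧ ¬ InBox 0 n y := by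
  constructor
  · intro h n
    obtain ⟨v, hv, hv'⟩ := h.exists_notMem_finite (finite_box 0 n)
    exact ⟨v, hv, hv'⟩
  · intro h hf
    obtain ⟨n, hn⟩ := (hf.image fun y : V => y.1.natAbs + y.2.natAbs).bddAbove
    obtain ⟨y, hy, hy'⟩ := h n
    have := hn (Set.mem_image_of_mem _ hy)
    apply hy'
    simp only [InBox, Prod.fst_zero, Prod.snd_zero, sub_zero, abs_le]
    omega

section Meas

variable {Ω : Type*} [MeasurableSpace Ω] {S : Ω → Set V}

def reachN (S : Set V) : ℕ → V → V → Prop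
  | 0, u, v => u = v
  | n + 1, u, v => ∃ w, reachN S n u w ∧ step S w v

lemma conn_iff_reachN (S : Set V) (u v : V) : Conn S u v ↔ ∃ n, reachN S n u v := by
  constructor
  · intro h
    induction h with
    | refl => exact ⟨0, rfl⟩
    | tail _ h2 ih =>
      obtain ⟨n, hn⟩ := ih
      exact ⟨n + 1, _, hn, h2⟩
  · rintro ⟨n, hn⟩
    induction n generalizing v with
    | zero => cases hn; exact .refl
    | succ n ih =>
      obtain ⟨w, h1, h2⟩ := hn
      exact .tail (ih w h1) h2

lemma measurable_conn (hS : ∀ y, Measurable fun ω => y ∈ S ω) (u v : V) :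
    Measurable fun ω => Conn (S ω) u v := by
  simp_rw [conn_iff_reachN]
  refine Measurable.exists fun n => ?_
  induction n generalizing v with
  | zero => exact measurable_const
  | succ n ih =>
    exact Measurable.exists fun w => (ih w).and ((hS w).and ((hS v).and measurable_const))

lemma measurableSet_cross (hS : ∀ y, Measurable fun ω => y ∈ S ω) (z : V) (r : ℤ) :
    MeasurableSet {ω | Cross (S ω) z r} := by
  rw [measurableSet_setOfPred]
  exact Measurable.exists fun u => Measurable.exists fun v =>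
    measurable_const.and (measurable_const.and (measurable_conn hS u v))

lemma measurableSet_hasInfiniteCluster (hS : ∀ y, Measurable fun ω => y ∈ S ω) :
    MeasurableSet {ω | HasInfiniteCluster (S ω)} := by
  rw [measurableSet_setOfPred]
  simp_rw [hasInfiniteCluster_iff, infinite_iff_unbounded]
  exact Measurable.exists fun x => (hS x).and (Measurable.forall fun n =>
    Measurable.exists fun y => (measurable_conn hS x y).and measurable_const)

end Meas

end Pool.Agent.Lib.MP_04d7a1_pr
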