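import Mathlib

open MeasureTheory ProbabilityTheory Filter
open scoped ENNReal NNReal

namespace Pool.Agent.Lib.MP_04d7a1_pr

section Product

variable {ι X : Type*}

/-- The event `E` depends only on the coordinates in `T`. -/
def DepOn (E : Set (ι → X)) (T : Set ι) : Prop :=
  ∀ ω ω' : ι → X, (∀ x ∈ T, ω x = ω' x) → ω ∈ E → ω' ∈ E

lemma DepOn.mono {E : Set (ι → X)} {T T' : Set ι} (h : DepOn E T) (hT : T ⊆ T') : DepOn E T' :=
  fun ω ω' hω => h ω ω' fun x hx => hω x (hT hx)

lemma DepOn.compl {E : Set (ι → X)} {T : Set ι} (h : DepOn E T) : DepOn Eᶜ T :=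
  fun ω ω' hω h1 h2 => h1 (h ω' ω (fun x hx => (hω x hx).symm) h2)

variable [mX : MeasurableSpace X]

lemma measurableSet_of_depOn [Nonempty X] {E : Set (ι → X)} {T : Set ι}
    (hE : MeasurableSet E) (hd : DepOn E T) (m : MeasurableSpace (ι → X))
    (hm : ∀ x ∈ T, MeasurableSpace.comap (fun ω : ι → X => ω x) mX ≤ m) :
    MeasurableSet[m] E := by
  classical
  obtain ⟨x0⟩ := ‹Nonempty X›
  let f : (ι → X) → (ι → X) := fun ω x => if x ∈ T then ω x else x0
  have hf : @Measurable _ _ m MeasurableSpace.pi f := by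
    refine @measurable_pi_lambda _ _ _ m _ f fun x => ?_
    by_cases hx : x ∈ T
    · simp only [f, hx, if_true]
      exact measurable_iff_comap_le.2 (hm x hx)
    · simp only [f, hx, if_false]
      exact measurable_const
  have : E = f ⁻¹' E := by
    ext ω
    constructor
    · intro h
      exact hd ω (f ω) (fun x hx => by simp [f, hx]) h
    · intro h
      exact hd (f ω) ω (fun x hx => by simp [f, hx]) h
  rw [this]
  exact hf hE

variable (π : Measure X) [IsProbabilityMeasure π]

lemma iIndep_coords :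
    iIndep (fun x : ι => MeasurableSpace.comap (fun ω : ι → X => ω x) mX)
      (Measure.infinitePi fun _ : ι => π) :=
  (iIndepFun_infinitePi (P := fun _ : ι => π) (X := fun _ a => a) (fun _ => measurable_id)).iIndep

lemma comap_coord_le (x : ι) :
    MeasurableSpace.comap (fun ω : ι → X => ω x) mX ≤ MeasurableSpace.pi :=
  measurable_iff_comap_le.1 (measurable_pi_apply x)

lemma measure_inter_of_depOn [Nonempty X] {E F : Set (ι → X)} {S T : Set ι}
    (hE : MeasurableSet E) (hF : MeasurableSet F) (dE : DepOn E S) (dF : DepOn F T)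
    (hST : Disjoint S T) :
    Measure.infinitePi (fun _ : ι => π) (E ∩ F) =
      Measure.infinitePi (fun _ : ι => π) E * Measure.infinitePi (fun _ : ι => π) F := by
  have h := indep_iSup_of_disjoint (comap_coord_le (X := X)) (iIndep_coords π) hST
  rw [Indep_iff] at h
  refine h E F ?_ ?_
  · exact measurableSet_of_depOn hE dE _ fun x hx => le_iSup₂_of_le x hx le_rfl
  · exact measurableSet_of_depOn hF dF _ fun x hx => le_iSup₂_of_le x hx le_rfl

lemma zero_one_of_depOn [Nonempty X] {E : Set (ι → X)} (hE : MeasurableSet E)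
    (dE : ∀ F : Set ι, F.Finite → DepOn E Fᶜ) :
    Measure.infinitePi (fun _ : ι => π) E = 0 ∨ Measure.infinitePi (fun _ : ι => π) E = 1 := by
  classical
  refine measure_zero_or_one_of_measurableSet_limsup (f := cofinite) (p := Set.Finite)
    (ns := fun s : Finset ι => (s : Set ι)) (comap_coord_le (X := X)) (iIndep_coords π)
    (fun t ht => ht.compl_mem_cofinite) ?_ (fun s => s.finite_toSet)
    (fun n => ⟨{n}, by simp⟩) ?_
  · intro a b
    exact ⟨a ∪ b, by simp, by simp⟩
  · rw [limsup_eq, MeasurableSpace.measurableSet_sInf]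
    intro m hm
    refine measurableSet_of_depOn hE (dE _ hm) m ?_
    intro x hx
    simpa using hx

end Product

section Poisson

variable {M : Type*} [MeasurableSpace M] (ν : Measure M) [IsProbabilityMeasure ν]

/-- Law at one site. -/
noncomputable def siteLaw (lam : ℝ≥0) : Measure (ℕ × (ℕ → M)) :=
  (poissonMeasure lam).prod (Measure.infinitePi fun _ => ν)

instance (lam : ℝ≥0) : IsProbabilityMeasure (siteLaw ν lam) := by
  unfold siteLaw; infer_instance

omit ν in
lemma measurableSet_avoid {D : Set M} (hD : MeasurableSet D) :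
    MeasurableSet {s : ℕ × (ℕ → M) | ∀ i < s.1, s.2 i ∉ D} := by
  rw [measurableSet_setOfPred]
  refine Measurable.forall fun i => Measurable.imp ?_ (Measurable.not ?_)
  · exact (measurable_of_countable (fun n : ℕ => i < n)).comp measurable_fst
  · exact measurableSet_setOfPred.1 (((measurable_pi_apply i).comp measurable_snd) hD)

lemma siteLaw_avoid (lam : ℝ≥0) {D : Set M} (hD : MeasurableSet D) :
    siteLaw ν lam {s | ∀ i < s.1, s.2 i ∉ D} =
      ENNReal.ofReal (Real.exp (-(lam * ν.real D))) := by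
  rw [siteLaw, Measure.prod_apply (measurableSet_avoid hD)]
  have h1 : ∀ n : ℕ, Measure.infinitePi (fun _ : ℕ => ν)
      (Prod.mk n ⁻¹' {s : ℕ × (ℕ → M) | ∀ i < s.1, s.2 i ∉ D}) =
        ENNReal.ofReal ((1 - ν.real D) ^ n) := by
    intro n
    have : (Prod.mk n ⁻¹' {s : ℕ × (ℕ → M) | ∀ i < s.1, s.2 i ∉ D}) =
        Set.pi (Finset.range n : Set ℕ) (fun _ => Dᶜ) := by
      ext f; simp
    rw [this, Measure.infinitePi_pi _ (fun _ _ => hD.compl), Finset.prod_const, Finset.card_range,
      ENNReal.ofReal_pow (by linarith [measureReal_le_one (μ := ν) (s := D)]),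
      ← probReal_compl_eq_one_sub hD, ofReal_measureReal]
  simp_rw [h1]
  rw [lintegral_countable', ]
  have hq : 0 ≤ 1 - ν.real D := by linarith [measureReal_le_one (μ := ν) (s := D)]
  have h2 : ∀ n : ℕ, ENNReal.ofReal ((1 - ν.real D) ^ n) * poissonMeasure lam {n} =
      ENNReal.ofReal (Real.exp (-lam) * ((lam * (1 - ν.real D)) ^ n / n.factorial)) := by
    intro n
    rw [poissonMeasure_singleton, ← ENNReal.ofReal_mul (by positivity)]
    congr 1
    rw [mul_pow]; ring
  simp_rw [h2]
  have h3 : HasSum (fun n : ℕ => Real.exp (-lam) * ((lam * (1 - ν.real D)) ^ n / n.factorial))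
      (Real.exp (-(lam * ν.real D))) := by
    have := (NormedSpace.expSeries_div_hasSum_exp ((lam : ℝ) * (1 - ν.real D))).mul_left
      (Real.exp (-lam))
    rw [← Real.exp_eq_exp_ℝ, ← Real.exp_add] at this
    have e : -((lam : ℝ) * ν.real D) = -lam + lam * (1 - ν.real D) := by ring
    rw [e]
    exact this
  rw [← h3.tsum_eq, ENNReal.ofReal_tsum_of_nonneg (fun n => by positivity) h3.summable]

lemma siteLaw_hit (lam : ℝ≥0) {D : Set M} (hD : MeasurableSet D) :
    siteLaw ν lam {s | ∃ i < s.1, s.2 i ∈ D} ≤ lam * ν D := by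
  have : {s : ℕ × (ℕ → M) | ∃ i < s.1, s.2 i ∈ D} = {s | ∀ i < s.1, s.2 i ∉ D}ᶜ := by
    ext s; simp
  rw [this, prob_compl_eq_one_sub (measurableSet_avoid hD), siteLaw_avoid ν lam hD,
    ← ENNReal.ofReal_one, ← ENNReal.ofReal_sub _ (Real.exp_pos _).le,
    ← ofReal_measureReal (μ := ν) (s := D), ← ENNReal.ofReal_coe_nnreal,
    ← ENNReal.ofReal_mul (by positivity)]
  apply ENNReal.ofReal_le_ofReal
  have := Real.add_one_le_exp (-(lam * ν.real D))
  linarith

variable {ι : Type*}

lemma prob_hit_site (lam : ℝ≥0) (x : ι) {D : Set M} (hD : MeasurableSet D) :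
    Measure.infinitePi (fun _ : ι => siteLaw ν lam) {ω | ∃ i < (ω x).1, (ω x).2 i ∈ D}
      ≤ lam * ν D := by
  have hm : MeasurableSet {s : ℕ × (ℕ → M) | ∃ i < s.1, s.2 i ∈ D} := by
    have : {s : ℕ × (ℕ → M) | ∃ i < s.1, s.2 i ∈ D} = {s | ∀ i < s.1, s.2 i ∉ D}ᶜ := by
      ext s; simp
    rw [this]; exact (measurableSet_avoid hD).compl
  have h := (measurePreserving_eval_infinitePi (fun _ : ι => siteLaw ν lam) x).measure_preimage
    hm.nullMeasurableSet
  exact h.le.trans (siteLaw_hit ν lam hD)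

lemma prob_avoid_finset (lam : ℝ≥0) (F : Finset ι) {D : Set M} (hD : MeasurableSet D) :
    Measure.infinitePi (fun _ : ι => siteLaw ν lam)
      {ω | ∀ x ∈ F, ∀ i < (ω x).1, (ω x).2 i ∉ D}
      = ENNReal.ofReal (Real.exp (-(F.card * (lam * ν.real D)))) := by
  have : {ω : ι → ℕ × (ℕ → M) | ∀ x ∈ F, ∀ i < (ω x).1, (ω x).2 i ∉ D} =
      Set.pi (F : Set ι) (fun _ => {s | ∀ i < s.1, s.2 i ∉ D}) := by
    ext ω; simp
  rw [this, Measure.infinitePi_pi _ (fun _ _ => measurableSet_avoid hD), Finset.prod_const,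
    siteLaw_avoid ν lam hD, ← ENNReal.ofReal_pow (Real.exp_pos _).le, ← Real.exp_nat_mul]
  congr 2
  ring

end Poisson

end Pool.Agent.Lib.MP_04d7a1_pr
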