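import Mathlib
import Pool.Agent.Lib.MP_04d7a1_pr.Defs
import Pool.Agent.Lib.MP_04d7a1_pr.Prob
import Pool.Agent.Lib.MP_04d7a1_pr.Paths

open MeasureTheory ProbabilityTheory Relation
open scoped ENNReal NNReal

namespace Pool.Agent.Lib.MP_04d7a1_pr

abbrev Mark := Fin 4 × ℕ
abbrev Omega := V → ℕ × (ℕ → Mark)

noncomputable def markLaw (μ : Measure ℕ) : Measure Mark := (uniformOn Set.univ).prod μ

instance (μ : Measure ℕ) [IsProbabilityMeasure μ] : IsProbabilityMeasure (markLaw μ) := by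
  unfold markLaw; infer_instance

lemma law_eq (μ : Measure ℕ) (lam : ℝ≥0) :
    law μ lam = Measure.infinitePi (fun _ : V => siteLaw (markLaw μ) lam) := rfl

instance (μ : Measure ℕ) [IsProbabilityMeasure μ] (lam : ℝ≥0) :
    IsProbabilityMeasure (law μ lam) := by
  rw [law_eq]; infer_instance

lemma measurable_site (x : V) (p : Mark → Prop) :
    Measurable fun ω : Omega => ∃ i < (ω x).1, p ((ω x).2 i) := by
  refine Measurable.exists fun i => Measurable.and ?_ ?_
  · exact (measurable_of_countable (fun n : ℕ => i < n)).comp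
      (measurable_fst.comp (measurable_pi_apply x))
  · exact (measurable_of_countable p).comp
      ((measurable_pi_apply i).comp (measurable_snd.comp (measurable_pi_apply x)))

lemma measurable_occupied (y : V) : Measurable fun ω : Omega => y ∈ occupied ω :=
  Measurable.exists fun x => measurable_site x fun m => ∃ j ≤ m.2, y = x + j • dir m.1

/-- The set occupied by rays of length at most `r`. -/
def occLe (r : ℕ) (ω : Omega) : Set V :=
  {y | ∃ x, ∃ i < (ω x).1, ((ω x).2 i).2 ≤ r ∧ ∃ j ≤ ((ω x).2 i).2, y = x + j • dir ((ω x).2 i).1}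

lemma measurable_occLe (r : ℕ) (y : V) : Measurable fun ω : Omega => y ∈ occLe r ω :=
  Measurable.exists fun x => measurable_site x fun m => m.2 ≤ r ∧ ∃ j ≤ m.2, y = x + j • dir m.1

/-- Some ray longer than `r` meets the box of radius `21 r` around `z`. -/
def LongHit (r : ℕ) (z : V) : Set Omega :=
  {ω | ∃ x, ∃ i < (ω x).1, r < ((ω x).2 i).2 ∧
    ∃ j ≤ ((ω x).2 i).2, InBox z (21 * r) (x + j • dir ((ω x).2 i).1)}

def CrossEv (r : ℕ) (z : V) : Set Omega := {ω | Cross (occLe r ω) z r}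

lemma measurableSet_crossEv (r : ℕ) (z : V) : MeasurableSet (CrossEv r z) :=
  measurableSet_cross (measurable_occLe r) z r

lemma inBox_root {z x : V} {R : ℤ} {j : ℕ} {d : Fin 4} (h : InBox z R (x + j • dir d)) :
    InBox z (R + j) x := by
  obtain ⟨h1, h2⟩ := h
  fin_cases d <;> simp [dir, InBox, abs_le] at h1 h2 ⊢ <;> omega

lemma depOn_crossEv (r : ℕ) (z : V) : DepOn (CrossEv r z) {x | InBox z (3 * r + 1) x} := by
  intro ω ω' h hω
  refine Cross.of_local (by positivity) hω ?_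
  rintro y ⟨x, i, hi, hL, j, hj, rfl⟩ hy
  have hx : InBox z (3 * r + 1) x := (inBox_root hy).mono (by omega)
  refine ⟨x, i, ?_⟩
  rw [← h x hx]
  exact ⟨hi, hL, j, hj, rfl⟩

lemma occLe_subset (r : ℕ) (ω : Omega) : occLe r ω ⊆ occupied ω := by
  rintro y ⟨x, i, hi, -, j, hj, rfl⟩
  exact ⟨x, i, hi, j, hj, rfl⟩

lemma cross_occLe_of_not_longHit {r : ℕ} {z : V} {ω : Omega} {R : ℤ} (hR : 0 ≤ R)
    (hR' : 2 * R + 1 ≤ 21 * r) (h : Cross (occupied ω) z R) (hω : ω ∉ LongHit r z) :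
    Cross (occLe r ω) z R := by
  refine Cross.of_local hR h ?_
  rintro y ⟨x, i, hi, j, hj, rfl⟩ hy
  refine ⟨x, i, hi, ?_, j, hj, rfl⟩
  by_contra hc
  exact hω ⟨x, i, hi, not_le.1 hc, j, hj, hy.mono hR'⟩

def perp : Fin 4 → V := ![(0, 1), (0, 1), (1, 0), (1, 0)]

lemma longHit_subset (r : ℕ) (z : V) :
    LongHit r z ⊆ ⋃ p ∈ (Finset.univ : Finset (Fin 4)) ×ˢ Finset.Icc (-(21 * r : ℤ)) (21 * r),
      ⋃ j : ℕ, {ω : Omega | ∃ i < (ω (z + p.2 • perp p.1 + (21 * r - j : ℤ) • dir p.1)).1,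
        (ω (z + p.2 • perp p.1 + (21 * r - j : ℤ) • dir p.1)).2 i ∈
          {m : Mark | max r (j - (42 * r + 1)) < m.2}} := by
  rintro ω ⟨x, i, hi, hL, j, hj, hb⟩
  have key : ∀ d : Fin 4, InBox z (21 * r) (x + j • dir d) → ∃ t : ℤ, ∃ k : ℕ,
      -(21 * r : ℤ) ≤ t ∧ t ≤ 21 * r ∧ k ≤ 42 * r + j ∧
        x = z + t • perp d + (21 * r - k : ℤ) • dir d := by
    intro d hd
    obtain ⟨h1, h2⟩ := hd
    fin_cases d
    · simp [dir, abs_le] at h1 h2
      refine ⟨x.2 - z.2, (21 * r - (x.1 - z.1)).toNat, by omega, by omega, by omega, ?_⟩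
      ext <;> simp [dir, perp] <;> omega
    · simp [dir, abs_le] at h1 h2
      refine ⟨x.2 - z.2, (21 * r + (x.1 - z.1)).toNat, by omega, by omega, by omega, ?_⟩
      ext <;> simp [dir, perp] <;> omega
    · simp [dir, abs_le] at h1 h2
      refine ⟨x.1 - z.1, (21 * r - (x.2 - z.2)).toNat, by omega, by omega, by omega, ?_⟩
      ext <;> simp [dir, perp] <;> omega
    · simp [dir, abs_le] at h1 h2
      refine ⟨x.1 - z.1, (21 * r + (x.2 - z.2)).toNat, by omega, by omega, by omega, ?_⟩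
      ext <;> simp [dir, perp] <;> omega
  obtain ⟨t, k, h1, h2, h3, h4⟩ := key _ hb
  simp only [Set.mem_iUnion]
  refine ⟨(((ω x).2 i).1, t), by simp [h1, h2], k, ?_⟩
  simp only [Set.mem_ofPred_eq]
  rw [← h4]
  exact ⟨i, hi, by omega⟩

lemma markLaw_len (μ : Measure ℕ) [IsProbabilityMeasure μ] (t : ℕ) :
    markLaw μ {m : Mark | t < m.2} = μ (Set.Ioi t) := by
  have : {m : Mark | t < m.2} = Set.univ ×ˢ Set.Ioi t := by ext m; simp
  rw [this, markLaw, Measure.prod_prod]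
  simp

lemma hasSum_tele {r : ℕ} (hr : 1 ≤ r) :
    HasSum (fun j : ℕ => 1 / ((r : ℝ) + j) - 1 / ((r : ℝ) + j + 1)) (1 / r) := by
  have hr' : (1 : ℝ) ≤ r := by exact_mod_cast hr
  rw [hasSum_iff_tendsto_nat_of_nonneg]
  · have h1 : ∀ n : ℕ, ∑ j ∈ Finset.range n, (1 / ((r : ℝ) + j) - 1 / ((r : ℝ) + j + 1)) =
        1 / r - 1 / ((r : ℝ) + n) := by
      intro n
      induction n with
      | zero => simp
      | succ n ih => rw [Finset.sum_range_succ, ih]; push_cast; ring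
    simp_rw [h1]
    have h2 : Filter.Tendsto (fun n : ℕ => 1 / ((r : ℝ) + n)) Filter.atTop (nhds 0) :=
      Filter.Tendsto.const_div_atTop
        (Filter.tendsto_atTop_add_const_left _ _ tendsto_natCast_atTop_atTop) 1
    simpa using h2.const_sub (1 / (r : ℝ))
  · intro j
    have : (0 : ℝ) < r + j := by positivity
    rw [sub_nonneg]
    exact one_div_le_one_div_of_le this (by linarith)

section Sub

variable {μ : Measure ℕ} [IsProbabilityMeasure μ] {C : ℝ≥0}

omit [IsProbabilityMeasure μ] in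
lemma tail_le (hC : ∀ t : ℕ, (t : ℝ≥0∞) ^ 2 * μ (Set.Ioi t) ≤ C) {t : ℕ} (ht : 1 ≤ t) :
    μ (Set.Ioi t) ≤ ENNReal.ofReal (C / (t : ℝ) ^ 2) := by
  have ht' : (0 : ℝ) < t := by exact_mod_cast ht
  rw [ENNReal.ofReal_div_of_pos (by positivity), ENNReal.ofReal_coe_nnreal,
    ENNReal.ofReal_pow ht'.le, ENNReal.ofReal_natCast,
    ENNReal.le_div_iff_mul_le (Or.inl (by positivity)) (Or.inl (by finiteness)), mul_comm]
  exact hC t

omit [IsProbabilityMeasure μ] in
lemma tsum_tail_le (hC : ∀ t : ℕ, (t : ℝ≥0∞) ^ 2 * μ (Set.Ioi t) ≤ C) {r : ℕ} (hr : 1 ≤ r) :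
    ∑' j : ℕ, μ (Set.Ioi (max r (j - (42 * r + 1)))) ≤ ENNReal.ofReal (4050 * C * (1 / r)) := by
  have hs := (hasSum_tele hr).mul_left (4050 * (C : ℝ))
  have hr' : (1 : ℝ) ≤ r := by exact_mod_cast hr
  have hpos : ∀ j : ℕ, 0 ≤ 4050 * (C : ℝ) * (1 / ((r : ℝ) + j) - 1 / ((r : ℝ) + j + 1)) := by
    intro j
    have : (0 : ℝ) < r + j := by positivity
    have := one_div_le_one_div_of_le this (by linarith : (r : ℝ) + j ≤ r + j + 1)
    have : 0 ≤ 1 / ((r : ℝ) + j) - 1 / ((r : ℝ) + j + 1) := by linarith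
    positivity
  rw [← hs.tsum_eq, ENNReal.ofReal_tsum_of_nonneg hpos hs.summable]
  refine ENNReal.tsum_le_tsum fun j => ?_
  set t := max r (j - (42 * r + 1)) with ht
  have h1 : 1 ≤ t := by omega
  have h2 : r + j ≤ 45 * t := by omega
  refine (tail_le hC h1).trans (ENNReal.ofReal_le_ofReal ?_)
  have h1' : (1 : ℝ) ≤ t := by exact_mod_cast h1
  have h2' : (r : ℝ) + j ≤ 45 * t := by exact_mod_cast h2
  have h3 : (1 : ℝ) ≤ r + j := by have : (0 : ℝ) ≤ j := by positivity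
                                  linarith
  have e : 4050 * (C : ℝ) * (1 / ((r : ℝ) + j) - 1 / ((r : ℝ) + j + 1)) =
      C * (4050 / ((r + j) * (r + j + 1))) := by
    field_simp; ring
  rw [e, div_eq_mul_one_div]
  refine mul_le_mul_of_nonneg_left ?_ C.2
  rw [div_le_div_iff₀ (by positivity) (by positivity)]
  nlinarith

lemma prob_longHit (hC : ∀ t : ℕ, (t : ℝ≥0∞) ^ 2 * μ (Set.Ioi t) ≤ C) (lam : ℝ≥0) {r : ℕ}
    (hr : 1 ≤ r) (z : V) : (law μ lam).real (LongHit r z) ≤ lam * (696600 * C) := by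
  have hr' : (1 : ℝ) ≤ r := by exact_mod_cast hr
  have h1 : law μ lam (LongHit r z) ≤
      ∑ _p ∈ (Finset.univ : Finset (Fin 4)) ×ˢ Finset.Icc (-(21 * r : ℤ)) (21 * r),
        (lam : ℝ≥0∞) * ENNReal.ofReal (4050 * C * (1 / r)) := by
    refine (measure_mono (longHit_subset r z)).trans ((measure_biUnion_finset_le _ _).trans ?_)
    refine Finset.sum_le_sum fun p _ => (measure_iUnion_le _).trans ?_
    refine le_trans ?_ (mul_le_mul_right (tsum_tail_le hC hr) _)
    rw [← ENNReal.tsum_mul_left]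
    refine ENNReal.tsum_le_tsum fun j => ?_
    rw [law_eq, ← markLaw_len]
    exact prob_hit_site _ lam _ (Set.to_countable _).measurableSet
  rw [Finset.sum_const, Finset.card_product, Finset.card_univ, Fintype.card_fin, Int.card_Icc,
    nsmul_eq_mul] at h1
  have h2 : (21 * (r : ℤ) + 1 - -(21 * r)).toNat = 42 * r + 1 := by omega
  rw [h2, ← ENNReal.ofReal_coe_nnreal, ← ENNReal.ofReal_natCast,
    ← ENNReal.ofReal_mul (by positivity), ← ENNReal.ofReal_mul (by positivity)] at h1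
  refine (ENNReal.toReal_le_of_le_ofReal (by positivity) h1).trans ?_
  push_cast
  have e : 4 * (42 * (r : ℝ) + 1) * (lam * (4050 * C * (1 / r))) =
      lam * (C * (16200 * (42 * r + 1) / r)) := by ring
  rw [e, mul_comm 696600]
  refine mul_le_mul_of_nonneg_left (mul_le_mul_of_nonneg_left ?_ C.2) lam.2
  rw [div_le_iff₀ (by positivity)]
  linarith

lemma prob_crossEv_one (lam : ℝ≥0) (z : V) : (law μ lam).real (CrossEv 1 z) ≤ lam * 25 := by
  have h0 : CrossEv 1 z ⊆ ⋃ x ∈ Finset.Icc (z.1 - 2, z.2 - 2) (z.1 + 2, z.2 + 2),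
      {ω : Omega | ∃ i < (ω x).1, (ω x).2 i ∈ (Set.univ : Set Mark)} := by
    intro ω hω
    obtain ⟨u, ⟨x, i, hi, hL, j, hj, rfl⟩, hu⟩ := Cross.exists_mem (by norm_num) hω
    obtain ⟨h1, h2⟩ := inBox_root hu
    simp only [Set.mem_iUnion]
    refine ⟨x, ?_, i, hi, trivial⟩
    rw [abs_le] at h1 h2
    simp only [Finset.mem_Icc, Prod.le_def]
    omega
  have h1 : law μ lam (CrossEv 1 z) ≤
      ∑ _x ∈ Finset.Icc (z.1 - 2, z.2 - 2) (z.1 + 2, z.2 + 2), (lam : ℝ≥0∞) := by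
    refine (measure_mono h0).trans ((measure_biUnion_finset_le _ _).trans ?_)
    refine Finset.sum_le_sum fun x _ => ?_
    rw [law_eq]
    simpa using prob_hit_site (markLaw μ) lam x MeasurableSet.univ
  rw [Finset.sum_const, Finset.card_Icc_prod, Int.card_Icc, Int.card_Icc, nsmul_eq_mul] at h1
  have h2 : (z.1 + 2 + 1 - (z.1 - 2)).toNat = 5 := by omega
  have h3 : (z.2 + 2 + 1 - (z.2 - 2)).toNat = 5 := by omega
  simp only [h2, h3] at h1
  rw [← ENNReal.ofReal_coe_nnreal, ← ENNReal.ofReal_natCast,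
    ← ENNReal.ofReal_mul (by positivity)] at h1
  refine (ENNReal.toReal_le_of_le_ofReal (by positivity) h1).trans ?_
  push_cast
  linarith

lemma prob_crossEv_step (lam : ℝ≥0) {r : ℕ} (hr : 1 ≤ r) {ε : ℝ}
    (h : ∀ z, (law μ lam).real (CrossEv r z) ≤ ε) (z : V) :
    (law μ lam).real (CrossEv (10 * r) z) ≤ (law μ lam).real (LongHit r z) + 43 ^ 4 * ε ^ 2 := by
  classical
  have hε : 0 ≤ ε := le_trans measureReal_nonneg (h 0)
  obtain ⟨I, hI⟩ : ∃ I : Finset V, I = Finset.Icc ((-21, -21) : V) (21, 21) := ⟨_, rfl⟩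
  have hIc : I.card = 43 * 43 := by
    rw [hI, Finset.card_Icc_prod, Int.card_Icc]
    rfl
  obtain ⟨J, hJ⟩ : ∃ J : Finset (V × V), J = (I ×ˢ I).filter
    fun p => 10 ≤ |p.1.1 - p.2.1| ∨ 10 ≤ |p.1.2 - p.2.2| := ⟨_, rfl⟩
  have h0 : CrossEv (10 * r) z ⊆ LongHit r z ∪
      ⋃ p ∈ J, (CrossEv r (z + (r : ℤ) • p.1) ∩ CrossEv r (z + (r : ℤ) • p.2)) := by
    intro ω hω
    by_cases hl : ω ∈ LongHit r z
    · exact Or.inl hl
    right
    have h1 : Cross (occupied ω) z (10 * r) := by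
      have : Cross (occLe (10 * r) ω) z ((10 * r : ℕ) : ℤ) := hω
      push_cast at this
      exact Cross.of_local (by positivity) this fun y hy _ => occLe_subset _ _ hy
    have h2 := cross_occLe_of_not_longHit (by positivity) (by omega) h1 hl
    obtain ⟨a, ha, b, hb, hab, h3, h4⟩ := h2.split (by omega)
    rw [← hI] at ha hb
    simp only [Set.mem_iUnion]
    exact ⟨(a, b), by simp only [hJ, Finset.mem_filter, Finset.mem_product]; exact ⟨⟨ha, hb⟩, hab⟩,
      h3, h4⟩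
  refine (measureReal_mono h0).trans ((measureReal_union_le _ _).trans ?_)
  refine add_le_add le_rfl ((measureReal_biUnion_finset_le _ _).trans ?_)
  have h5 : ∀ p ∈ J, (law μ lam).real
      (CrossEv r (z + (r : ℤ) • p.1) ∩ CrossEv r (z + (r : ℤ) • p.2)) ≤ ε ^ 2 := by
    intro p hp
    rw [hJ] at hp
    have hp' := (Finset.mem_filter.1 hp).2
    rw [measureReal_def, law_eq, measure_inter_of_depOn _ (measurableSet_crossEv _ _)
      (measurableSet_crossEv _ _) (depOn_crossEv _ _) (depOn_crossEv _ _), ENNReal.toReal_mul, sq]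
    · exact mul_le_mul (h _) (h _) ENNReal.toReal_nonneg hε
    · rw [Set.disjoint_left]
      rintro x ⟨h1, h2⟩ ⟨h3, h4⟩
      simp only [Prod.fst_add, Prod.snd_add, Prod.smul_fst, Prod.smul_snd, smul_eq_mul,
        abs_le] at h1 h2 h3 h4
      have hr' : (1 : ℤ) ≤ r := by omega
      simp only [le_abs] at hp'
      rcases hp' with (hp' | hp') | (hp' | hp') <;> nlinarith
  refine (Finset.sum_le_card_nsmul _ _ _ h5).trans ?_
  rw [nsmul_eq_mul]
  refine mul_le_mul_of_nonneg_right ?_ (by positivity)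
  have : J.card ≤ 43 ^ 4 := by
    rw [hJ]
    refine (Finset.card_filter_le _ _).trans ?_
    rw [Finset.card_product, hIc]
    norm_num
  exact_mod_cast this

lemma prob_crossEv_le (hC : ∀ t : ℕ, (t : ℝ≥0∞) ^ 2 * μ (Set.Ioi t) ≤ C) (lam : ℝ≥0)
    (hlam : lam * (696600 * (C : ℝ) + 25) ≤ 1 / (4 * 43 ^ 4)) (k : ℕ) (z : V) :
    (law μ lam).real (CrossEv (10 ^ k) z) ≤ 1 / (2 * 43 ^ 4) := by
  have hl : (0 : ℝ) ≤ lam := lam.2
  have hC' : (0 : ℝ) ≤ C := C.2
  have hlC : (0 : ℝ) ≤ lam * C := by positivity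
  induction k generalizing z with
  | zero =>
    have := prob_crossEv_one (μ := μ) lam z
    rw [pow_zero]
    nlinarith
  | succ k ih =>
    have hr : 1 ≤ 10 ^ k := Nat.one_le_pow _ _ (by norm_num)
    have h1 := prob_crossEv_step lam hr ih z
    have h2 := prob_longHit hC lam hr z
    rw [pow_succ, mul_comm]
    nlinarith

lemma depOn_hasInfiniteCluster (F : Set V) (hF : F.Finite) :
    DepOn {ω : Omega | HasInfiniteCluster (occupied ω)} Fᶜ := by
  intro ω ω' h hω
  refine HasInfiniteCluster.of_finite_diff hω ?_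
  refine Set.Finite.subset (hF.biUnion fun x _ => (Set.finite_Iio (ω x).1).biUnion fun i _ =>
    (Set.finite_Iic ((ω x).2 i).2).image fun j => x + j • dir ((ω x).2 i).1) ?_
  rintro y ⟨⟨x, i, hi, j, hj, rfl⟩, hy⟩
  simp only [Set.mem_iUnion]
  refine ⟨x, ?_, i, hi, j, hj, rfl⟩
  by_contra hx
  apply hy
  refine ⟨x, i, ?_⟩
  rw [← h x hx]
  exact ⟨hi, j, hj, rfl⟩

theorem no_percolation (hC : ∀ t : ℕ, (t : ℝ≥0∞) ^ 2 * μ (Set.Ioi t) ≤ C) (lam : ℝ≥0)
    (hlam : lam * (696600 * (C : ℝ) + 25) ≤ 1 / (4 * 43 ^ 4)) :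
    law μ lam {ω | HasInfiniteCluster (occupied ω)} = 0 := by
  have h01 := zero_one_of_depOn (siteLaw (markLaw μ) lam)
    (measurableSet_hasInfiniteCluster measurable_occupied) depOn_hasInfiniteCluster
  rw [← law_eq] at h01
  refine h01.resolve_right fun h1 => ?_
  let E : ℕ → Set Omega := fun k =>
    {ω | ∃ x, InBox 0 ((10 ^ k : ℕ) : ℤ) x ∧ Set.Infinite {y | Conn (occupied ω) x y}}
  have hmono : Monotone E := by
    intro k l hkl ω ⟨x, hx, hx'⟩
    refine ⟨x, hx.mono ?_, hx'⟩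
    exact_mod_cast Nat.pow_le_pow_right (by norm_num) hkl
  have hU : {ω | HasInfiniteCluster (occupied ω)} ⊆ ⋃ k, E k := by
    rintro ω ⟨x, -, hx⟩
    simp only [Set.mem_iUnion]
    refine ⟨x.1.natAbs + x.2.natAbs, x, ?_, hx⟩
    have := Nat.lt_pow_self (n := x.1.natAbs + x.2.natAbs) (by norm_num : 1 < 10)
    simp only [InBox, Prod.fst_zero, Prod.snd_zero, sub_zero, abs_le]
    omega
  have hE : ∀ k, law μ lam (E k) ≤ ENNReal.ofReal (1 / 2) := by
    intro k
    have hr : 1 ≤ 10 ^ k := Nat.one_le_pow _ _ (by norm_num)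
    have hsub : E k ⊆ LongHit (10 ^ k) 0 ∪ CrossEv (10 ^ k) 0 := by
      rintro ω ⟨x, hx, hx'⟩
      by_cases hl : ω ∈ LongHit (10 ^ k) 0
      · exact Or.inl hl
      · exact Or.inr (cross_occLe_of_not_longHit (by positivity) (by omega)
          (cross_of_infinite hx hx') hl)
    have h2 := prob_longHit hC lam hr 0
    have h3 := prob_crossEv_le hC lam hlam k 0
    have h4 := (measureReal_mono (μ := law μ lam) hsub).trans (measureReal_union_le _ _)
    have hl : (0 : ℝ) ≤ lam := lam.2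
    rw [← ofReal_measureReal]
    apply ENNReal.ofReal_le_ofReal
    nlinarith
  have h5 : law μ lam {ω | HasInfiniteCluster (occupied ω)} ≤ ENNReal.ofReal (1 / 2) := by
    refine (measure_mono hU).trans ?_
    rw [hmono.measure_iUnion]
    exact iSup_le hE
  rw [h1, ← ENNReal.ofReal_one, ENNReal.ofReal_le_ofReal_iff (by norm_num)] at h5
  norm_num at h5

theorem critical_pos (hC : ∀ t : ℕ, (t : ℝ≥0∞) ^ 2 * μ (Set.Ioi t) ≤ C) : 0 < critical μ := by
  have hC' : (0 : ℝ) ≤ C := C.2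
  set l0 : ℝ := 1 / (4 * 43 ^ 4) / (696600 * (C : ℝ) + 25) with hl0
  have hpos : 0 < l0 := by positivity
  refine lt_of_lt_of_le (ENNReal.ofReal_pos.2 hpos) ?_
  refine le_iInf fun lam => le_iInf fun _ => le_iInf fun h => ?_
  rw [← ENNReal.ofReal_coe_nnreal]
  apply ENNReal.ofReal_le_ofReal
  by_contra hc
  have : lam * (696600 * (C : ℝ) + 25) ≤ 1 / (4 * 43 ^ 4) := by
    rw [← le_div_iff₀ (by positivity)]
    exact (not_le.1 hc).le
  rw [no_percolation hC lam this] at h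
  exact lt_irrefl _ h

end Sub

end Pool.Agent.Lib.MP_04d7a1_pr
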