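import Mathlib
import Pool.Agent.Lib.MP_04d7a1_pr.Sub

open MeasureTheory ProbabilityTheory
open scoped ENNReal NNReal

namespace Pool.Agent.Lib.MP_04d7a1_pr

noncomputable def wt (n : ℕ) : ℝ := 1 / ((n : ℝ) + 1) ^ 2 - 1 / ((n : ℝ) + 2) ^ 2

lemma wt_nonneg (n : ℕ) : 0 ≤ wt n := by
  unfold wt
  rw [sub_nonneg]
  have : (0 : ℝ) ≤ n := by positivity
  exact one_div_le_one_div_of_le (by positivity) (by nlinarith)

lemma hasSum_wt (k : ℕ) : HasSum (fun n => wt (n + k)) (1 / ((k : ℝ) + 1) ^ 2) := by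
  rw [hasSum_iff_tendsto_nat_of_nonneg (fun n => wt_nonneg _)]
  have h1 : ∀ n : ℕ, ∑ j ∈ Finset.range n, wt (j + k) =
      1 / ((k : ℝ) + 1) ^ 2 - 1 / ((n : ℝ) + (k + 1)) ^ 2 := by
    intro n
    induction n with
    | zero => simp
    | succ n ih => rw [Finset.sum_range_succ, ih]; unfold wt; push_cast; ring
  simp_rw [h1]
  have h2 : Filter.Tendsto (fun n : ℕ => 1 / ((n : ℝ) + (k + 1)) ^ 2) Filter.atTop (nhds 0) :=
    Filter.Tendsto.const_div_atTop ((Filter.tendsto_pow_atTop two_ne_zero).comp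
      (Filter.tendsto_atTop_add_const_right _ _ tendsto_natCast_atTop_atTop)) 1
  have h3 := h2.const_sub (1 / ((k : ℝ) + 1) ^ 2)
  rwa [sub_zero] at h3

noncomputable def exLaw : Measure ℕ := Measure.sum fun n => ENNReal.ofReal (wt n) • Measure.dirac n

instance : IsProbabilityMeasure exLaw := by
  have := hasSum_wt 0
  simp only [add_zero, Nat.cast_zero, zero_add, one_pow, div_one] at this
  exact this.isProbabilityMeasure_sum_dirac wt_nonneg

lemma exLaw_singleton (n : ℕ) : exLaw {n} = ENNReal.ofReal (wt n) := by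
  rw [exLaw, Measure.sum_smul_dirac_singleton]

lemma exLaw_Ioi (t : ℕ) : exLaw (Set.Ioi t) = ENNReal.ofReal (1 / ((t : ℝ) + 2) ^ 2) := by
  have h : Set.Ioi t = ⋃ n : ℕ, {n + (t + 1)} := by
    ext m
    simp only [Set.mem_Ioi, Set.mem_iUnion, Set.mem_singleton_iff]
    exact ⟨fun h => ⟨m - (t + 1), by omega⟩, fun ⟨n, hn⟩ => by omega⟩
  rw [h, measure_iUnion _ (fun _ => MeasurableSet.singleton _)]
  · simp_rw [exLaw_singleton]
    have := hasSum_wt (t + 1)
    rw [← ENNReal.ofReal_tsum_of_nonneg (fun n => wt_nonneg _) this.summable, this.tsum_eq]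
    push_cast
    congr 3
    ring
  · intro i j hij
    simpa using hij

lemma exLaw_tail (t : ℕ) : (t : ℝ≥0∞) ^ 2 * exLaw (Set.Ioi t) ≤ (1 : ℝ≥0) := by
  rw [exLaw_Ioi, ← ENNReal.ofReal_natCast, ← ENNReal.ofReal_pow (by positivity),
    ← ENNReal.ofReal_mul (by positivity), ← ENNReal.ofReal_coe_nnreal]
  apply ENNReal.ofReal_le_ofReal
  have : (0 : ℝ) ≤ t := by positivity
  rw [mul_one_div, NNReal.coe_one, div_le_one (by positivity)]
  nlinarith

lemma exLaw_second_moment : ∫⁻ L, ((L : ℝ≥0∞) + 1) ^ 2 ∂exLaw = ⊤ := by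
  rw [lintegral_countable']
  simp_rw [exLaw_singleton]
  have h1 : ∀ n : ℕ, ENNReal.ofReal (1 / ((n + 2 : ℕ) : ℝ)) ≤
      ((n : ℝ≥0∞) + 1) ^ 2 * ENNReal.ofReal (wt n) := by
    intro n
    rw [← ENNReal.ofReal_natCast, ← ENNReal.ofReal_one, ← ENNReal.ofReal_add (by positivity)
      (by positivity), ← ENNReal.ofReal_pow (by positivity), ← ENNReal.ofReal_mul (by positivity)]
    apply ENNReal.ofReal_le_ofReal
    have : (0 : ℝ) ≤ n := by positivity
    have e : ((n : ℝ) + 1) ^ 2 * wt n = (2 * n + 3) / ((n : ℝ) + 2) ^ 2 := by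
      unfold wt; field_simp; ring
    rw [e]
    push_cast
    rw [div_le_div_iff₀ (by positivity) (by positivity)]
    nlinarith
  rw [eq_top_iff]
  refine le_trans ?_ (ENNReal.tsum_le_tsum h1)
  by_contra hc
  have h2 : ∑' n : ℕ, ENNReal.ofReal (1 / ((n + 2 : ℕ) : ℝ)) ≠ ⊤ := fun h => hc h.ge
  have h3 := ENNReal.summable_toReal h2
  simp_rw [ENNReal.toReal_ofReal (show (0 : ℝ) ≤ 1 / ((_ + 2 : ℕ) : ℝ) by positivity)] at h3
  exact Real.not_summable_one_div_natCast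
    ((summable_nat_add_iff (f := fun n : ℕ => 1 / (n : ℝ)) 2).1 h3)

end Pool.Agent.Lib.MP_04d7a1_pr
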