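import Mathlib
import Pool.Agent.Lib.MP_04d7a1_pr.Prob
import Pool.Agent.Lib.MP_04d7a1_pr.Paths

open MeasureTheory ProbabilityTheory Relation
open scoped ENNReal NNReal

namespace Pool.Agent.Lib.MP_04d7a1_pr

def subc (a : V) (p : Fin 3 × Fin 3) : V := (3 * a.1 + (p.1 : ℕ), 3 * a.2 + (p.2 : ℕ))

def Good (G : Set V) : ℕ → V → Prop
  | 0, a => a ∈ G
  | k + 1, a => ∃ β : Fin 3 × Fin 3, ∀ p, p ≠ β → Good G k (subc a p)

open Classical in
noncomputable def pt (G : Set V) : ℕ → V → V
  | 0, a => a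
  | k + 1, a => if Good G k (subc a (0, 0)) then pt G k (subc a (0, 0)) else pt G k (subc a (1, 0))

lemma pt_ge (G : Set V) (k : ℕ) (a : V) : 3 ^ k * a.1 ≤ (pt G k a).1 := by
  induction k generalizing a with
  | zero => simp [pt]
  | succ k ih =>
    have h3 : (0 : ℤ) < 3 ^ k := by positivity
    simp only [pt]
    split_ifs
    · refine le_trans ?_ (ih _)
      simp only [subc]
      rw [pow_succ]
      nlinarith [Int.natCast_nonneg ((0 : Fin 3) : ℕ)]
    · refine le_trans ?_ (ih _)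
      simp only [subc]
      rw [pow_succ]
      nlinarith [Int.natCast_nonneg ((1 : Fin 3) : ℕ)]

lemma line_conn {G : Set V} {g : Fin 3 → V} (h01 : Conn G (g 0) (g 1)) (h12 : Conn G (g 1) (g 2))
    (j j' : Fin 3) : Conn G (g j) (g j') := by
  have h : ∀ j : Fin 3, Conn G (g 1) (g j) := by
    intro j
    fin_cases j
    · exact conn_symm h01
    · exact .refl
    · exact h12
  exact (conn_symm (h j)).trans (h j')

lemma grid_conn {G : Set V} {f : Fin 3 × Fin 3 → V} {good : Fin 3 × Fin 3 → Prop}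
    (H : ∀ p q, good p → good q →
      |((p.1 : ℕ) : ℤ) - (q.1 : ℕ)| + |((p.2 : ℕ) : ℤ) - (q.2 : ℕ)| = 1 → Conn G (f p) (f q))
    {β : Fin 3 × Fin 3} (hβ : ∀ p, p ≠ β → good p) {p q : Fin 3 × Fin 3} (hp : good p)
    (hq : good q) : Conn G (f p) (f q) := by
  have col : ∀ i, (∀ j, good (i, j)) → ∀ j j', Conn G (f (i, j)) (f (i, j')) := fun i hi =>
    line_conn (g := fun j => f (i, j)) (H _ _ (hi _) (hi _) (by simp)) (H _ _ (hi _) (hi _) (by simp))
  have row : ∀ j, (∀ i, good (i, j)) → ∀ i i', Conn G (f (i, j)) (f (i', j)) := fun j hj =>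
    line_conn (g := fun i => f (i, j)) (H _ _ (hj _) (hj _) (by simp)) (H _ _ (hj _) (hj _) (by simp))
  obtain ⟨i1, hi1⟩ := exists_ne β.1
  obtain ⟨j1, hj1⟩ := exists_ne β.2
  have gc : ∀ i, i ≠ β.1 → ∀ j, good (i, j) := fun i hi j => hβ _ fun h => hi (congrArg Prod.fst h)
  have gr : ∀ j, j ≠ β.2 → ∀ i, good (i, j) := fun j hj i => hβ _ fun h => hj (congrArg Prod.snd h)
  have hub : ∀ p, good p → Conn G (f p) (f (i1, j1)) := by
    rintro ⟨i, j⟩ hp
    by_cases hi : i = β.1
    · by_cases hj : j = β.2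
      · have all : ∀ q, good q := fun q => by
          by_cases hq : q = β
          · rw [hq]
            have : β = (i, j) := Prod.ext hi.symm hj.symm
            rw [this]; exact hp
          · exact hβ q hq
        exact (col i (fun _ => all _) j j1).trans (row j1 (gr j1 hj1) i i1)
      · exact (row j (gr j hj) i i1).trans (col i1 (gc i1 hi1) j j1)
    · exact (col i (gc i hi) j j1).trans (row j1 (gr j1 hj1) i i1)
  exact (hub p hp).trans (conn_symm (hub q hq))

lemma conn_sub {G : Set V} {k : ℕ}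
    (ih : ∀ a b : V, Good G k a → Good G k b → |a.1 - b.1| + |a.2 - b.2| = 1 →
      Conn G (pt G k a) (pt G k b))
    {a : V} (ha : Good G (k + 1) a) {p : Fin 3 × Fin 3} (hp : Good G k (subc a p)) :
    Conn G (pt G (k + 1) a) (pt G k (subc a p)) := by
  obtain ⟨β, hβ⟩ := ha
  have H : ∀ q, Good G k (subc a q) → Conn G (pt G k (subc a q)) (pt G k (subc a p)) := fun q hq =>
    grid_conn (f := fun p => pt G k (subc a p)) (good := fun p => Good G k (subc a p))
      (fun p q hp hq h => ih _ _ hp hq (by simpa [subc] using h)) hβ hq hp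
  simp only [pt]
  split_ifs with h
  · exact H _ h
  · refine H _ (hβ _ ?_)
    rintro rfl
    exact h (hβ _ (by decide))

lemma exists_ne_ne (a b : Fin 3) : ∃ j : Fin 3, j ≠ a ∧ j ≠ b := by
  revert a b; decide

lemma good_link (G : Set V) (k : ℕ) : ∀ a b : V, Good G k a → Good G k b →
    |a.1 - b.1| + |a.2 - b.2| = 1 → Conn G (pt G k a) (pt G k b) := by
  induction k with
  | zero => exact fun a b ha hb h => .single ⟨ha, hb, h⟩
  | succ k ih =>
    have hor : ∀ a b : V, Good G (k + 1) a → Good G (k + 1) b → b.1 = a.1 + 1 → b.2 = a.2 →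
        Conn G (pt G (k + 1) a) (pt G (k + 1) b) := by
      intro a b ha hb h1 h2
      obtain ⟨α, hα⟩ := id ha
      obtain ⟨β, hβ⟩ := id hb
      obtain ⟨j, hj, hj'⟩ := exists_ne_ne α.2 β.2
      have g1 := hα (2, j) fun h => hj (congrArg Prod.snd h)
      have g2 := hβ (0, j) fun h => hj' (congrArg Prod.snd h)
      refine ((conn_sub ih ha g1).trans (ih _ _ g1 g2 ?_)).trans (conn_symm (conn_sub ih hb g2))
      simp only [subc, h1, h2]
      have : (3 * a.1 + ((2 : Fin 3) : ℕ) - (3 * (a.1 + 1) + ((0 : Fin 3) : ℕ)) : ℤ) = -1 := by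
        simp; ring
      rw [this]; simp
    have ver : ∀ a b : V, Good G (k + 1) a → Good G (k + 1) b → b.1 = a.1 → b.2 = a.2 + 1 →
        Conn G (pt G (k + 1) a) (pt G (k + 1) b) := by
      intro a b ha hb h1 h2
      obtain ⟨α, hα⟩ := id ha
      obtain ⟨β, hβ⟩ := id hb
      obtain ⟨j, hj, hj'⟩ := exists_ne_ne α.1 β.1
      have g1 := hα (j, 2) fun h => hj (congrArg Prod.fst h)
      have g2 := hβ (j, 0) fun h => hj' (congrArg Prod.fst h)
      refine ((conn_sub ih ha g1).trans (ih _ _ g1 g2 ?_)).trans (conn_symm (conn_sub ih hb g2))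
      simp only [subc, h1, h2]
      have : (3 * a.2 + ((2 : Fin 3) : ℕ) - (3 * (a.2 + 1) + ((0 : Fin 3) : ℕ)) : ℤ) = -1 := by
        simp; ring
      rw [this]; simp
    intro a b ha hb h
    have hc : (b.1 = a.1 + 1 ∧ b.2 = a.2) ∨ (a.1 = b.1 + 1 ∧ a.2 = b.2) ∨
        (b.1 = a.1 ∧ b.2 = a.2 + 1) ∨ (a.1 = b.1 ∧ a.2 = b.2 + 1) := by
      rcases abs_cases (a.1 - b.1) with h1 | h1 <;> rcases abs_cases (a.2 - b.2) with h2 | h2 <;>
        omega
    rcases hc with h | h | h | h
    · exact hor a b ha hb h.1 h.2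
    · exact conn_symm (hor b a hb ha h.1 h.2)
    · exact ver a b ha hb h.1 h.2
    · exact conn_symm (ver b a hb ha h.1 h.2)

lemma infinite_of_good {G : Set V} (h : ∀ k, Good G k 0) : HasInfiniteCluster G := by
  have e0 : subc 0 (0, 0) = 0 := by simp [subc]
  have h0 : ∀ k, Conn G 0 (pt G k 0) := by
    intro k
    induction k with
    | zero => exact .refl
    | succ k ih =>
      have := conn_sub (good_link G k) (h (k + 1)) (p := (0, 0)) (by rw [e0]; exact h k)
      rw [e0] at this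
      exact ih.trans (conn_symm this)
  refine hasInfiniteCluster_of_infinite (x := 0) ((infinite_iff_unbounded _).2 fun n => ?_)
  obtain ⟨β, hβ⟩ := id (h (n + 1))
  obtain ⟨j, hj, hj'⟩ := exists_ne_ne 0 β.1
  have g := hβ (j, 0) fun h => hj' (congrArg Prod.fst h)
  refine ⟨_, (h0 (n + 1)).trans (conn_sub (good_link G n) (h (n + 1)) g), ?_⟩
  rintro ⟨h1, -⟩
  have h2 := pt_ge G n (subc 0 (j, 0))
  have h3 : (1 : ℤ) ≤ (subc 0 (j, 0)).1 := by
    have : (j : ℕ) ≠ 0 := fun h => hj (Fin.ext h)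
    simp only [subc, Prod.fst_zero]
    omega
  have h4 : (n : ℤ) < 3 ^ n := by exact_mod_cast Nat.lt_pow_self (by norm_num : 1 < 3)
  rw [Prod.fst_zero, sub_zero, abs_le] at h1
  nlinarith

def region (n : ℤ) (a : V) : Set V :=
  {x | (n * a.1 ≤ x.1 ∧ x.1 < n * a.1 + n) ∧ (n * a.2 ≤ x.2 ∧ x.2 < n * a.2 + n)}

lemma region_disjoint {n : ℤ} (hn : 0 < n) {a b : V} (hab : a ≠ b) :
    Disjoint (region n a) (region n b) := by
  rw [Set.disjoint_left]
  rintro x ⟨⟨h1, h2⟩, h3, h4⟩ ⟨⟨h5, h6⟩, h7, h8⟩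
  apply hab
  ext
  · exact le_antisymm (le_of_mul_le hn (by linarith)) (le_of_mul_le hn (by linarith))
  · exact le_antisymm (le_of_mul_le hn (by linarith)) (le_of_mul_le hn (by linarith))

lemma region_sub {n : ℤ} (hn : 0 < n) (a : V) (p : Fin 3 × Fin 3) :
    region n (subc a p) ⊆ region (n * 3) a := by
  rintro x ⟨⟨h1, h2⟩, h3, h4⟩
  simp only [subc] at h1 h2 h3 h4
  have p1 : ((p.1 : ℕ) : ℤ) ≤ 2 := by omega
  have p2 : ((p.2 : ℕ) : ℤ) ≤ 2 := by omega
  have p3 : (0 : ℤ) ≤ (p.1 : ℕ) := by omega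
  have p4 : (0 : ℤ) ≤ (p.2 : ℕ) := by omega
  refine ⟨⟨?_, ?_⟩, ?_, ?_⟩ <;> nlinarith

lemma subc_injective (a : V) : Function.Injective (subc a) := by
  intro p q h
  simp only [subc, Prod.mk.injEq] at h
  ext <;> omega

section HierProb

variable {X : Type*} [MeasurableSpace X] [Nonempty X] (π : Measure X) [IsProbabilityMeasure π]
  {G : (V → X) → Set V}

omit [Nonempty X] in
lemma measurable_good (hG : ∀ a, Measurable fun ω => a ∈ G ω) (k : ℕ) (a : V) :
    Measurable fun ω => Good (G ω) k a := by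
  induction k generalizing a with
  | zero => exact hG a
  | succ k ih =>
    exact Measurable.exists fun β => Measurable.forall fun p => measurable_const.imp (ih _)

omit [Nonempty X] [MeasurableSpace X] in
lemma depOn_good {n : ℤ} (hn : 0 < n) (hd : ∀ a, DepOn {ω | a ∈ G ω} (region n a)) (k : ℕ)
    (a : V) : DepOn {ω | Good (G ω) k a} (region (n * 3 ^ k) a) := by
  induction k generalizing a with
  | zero => simpa [Good] using hd a
  | succ k ih =>
    rintro ω ω' h ⟨β, hβ⟩
    refine ⟨β, fun p hp => ih _ ω ω' (fun x hx => h x ?_) (hβ p hp)⟩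
    rw [pow_succ, ← mul_assoc]
    exact region_sub (by positivity) a p hx

lemma prob_bad (hG : ∀ a, Measurable fun ω => a ∈ G ω) {n : ℤ} (hn : 0 < n)
    (hd : ∀ a, DepOn {ω | a ∈ G ω} (region n a))
    (h0 : ∀ a, (Measure.infinitePi fun _ : V => π).real {ω | a ∈ G ω}ᶜ ≤ 1 / 200) (k : ℕ) (a : V) :
    (Measure.infinitePi fun _ : V => π).real {ω | Good (G ω) k a}ᶜ ≤ 1 / 200 * (1 / 2) ^ k := by
  classical
  induction k generalizing a with
  | zero => simpa [Good] using h0 a
  | succ k ih =>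
    have hsub : {ω | Good (G ω) (k + 1) a}ᶜ ⊆
        ⋃ p ∈ (Finset.univ : Finset ((Fin 3 × Fin 3) × (Fin 3 × Fin 3))).filter
          (fun p => p.1 ≠ p.2),
          ({ω | Good (G ω) k (subc a p.1)}ᶜ ∩ {ω | Good (G ω) k (subc a p.2)}ᶜ) := by
      intro ω hω
      have hω' : ¬ ∃ β : Fin 3 × Fin 3, ∀ p, p ≠ β → Good (G ω) k (subc a p) := hω
      push Not at hω'
      obtain ⟨p, -, hp⟩ := hω' (0, 0)
      obtain ⟨q, hq, hq'⟩ := hω' p
      simp only [Set.mem_iUnion]
      exact ⟨(q, p), by simpa using hq, hq', hp⟩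
    refine (measureReal_mono hsub (measure_ne_top _ _)).trans
      ((measureReal_biUnion_finset_le _ _).trans ?_)
    have h5 : ∀ p ∈ (Finset.univ : Finset ((Fin 3 × Fin 3) × (Fin 3 × Fin 3))).filter
          (fun p => p.1 ≠ p.2), (Measure.infinitePi fun _ : V => π).real
        ({ω | Good (G ω) k (subc a p.1)}ᶜ ∩ {ω | Good (G ω) k (subc a p.2)}ᶜ) ≤
          (1 / 200 * (1 / 2) ^ k) ^ 2 := by
      intro p hp
      have hp' := (Finset.mem_filter.1 hp).2
      rw [measureReal_def, measure_inter_of_depOn π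
        (measurableSet_setOfPred.2 (measurable_good hG k _)).compl
        (measurableSet_setOfPred.2 (measurable_good hG k _)).compl
        (depOn_good hn hd k _).compl (depOn_good hn hd k _).compl
        (region_disjoint (by positivity) ((subc_injective a).ne hp')), ENNReal.toReal_mul, sq]
      exact mul_le_mul (ih _) (ih _) ENNReal.toReal_nonneg (by positivity)
    refine (Finset.sum_le_card_nsmul _ _ _ h5).trans ?_
    rw [nsmul_eq_mul]
    have hc : (((Finset.univ : Finset ((Fin 3 × Fin 3) × (Fin 3 × Fin 3))).filter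
          (fun p => p.1 ≠ p.2)).card : ℝ) ≤ 81 := by
      have := Finset.card_filter_le (Finset.univ : Finset ((Fin 3 × Fin 3) × (Fin 3 × Fin 3)))
        (fun p => p.1 ≠ p.2)
      simp only [Finset.card_univ, Fintype.card_prod, Fintype.card_fin] at this
      exact_mod_cast this
    refine (mul_le_mul_of_nonneg_right hc (by positivity)).trans ?_
    have h1 : ((1 : ℝ) / 2) ^ k ≤ 1 := pow_le_one₀ (by norm_num) (by norm_num)
    have h2 : (0 : ℝ) < (1 / 2) ^ k := by positivity
    rw [pow_succ (1 / 2 : ℝ) k]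
    nlinarith

theorem site_percolation (hG : ∀ a, Measurable fun ω => a ∈ G ω) {n : ℤ} (hn : 0 < n)
    (hd : ∀ a, DepOn {ω | a ∈ G ω} (region n a))
    (h0 : ∀ a, (Measure.infinitePi fun _ : V => π).real {ω | a ∈ G ω}ᶜ ≤ 1 / 200) :
    0 < (Measure.infinitePi fun _ : V => π) {ω | HasInfiniteCluster (G ω)} := by
  rw [pos_iff_ne_zero]
  intro hz
  have hsub : (Set.univ : Set (V → X)) ⊆
      {ω | HasInfiniteCluster (G ω)} ∪ ⋃ k, {ω | Good (G ω) k 0}ᶜ := by
    intro ω _
    by_cases h : ∀ k, Good (G ω) k 0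
    · exact Or.inl (infinite_of_good h)
    · push Not at h
      exact Or.inr (Set.mem_iUnion.2 h)
  have h1 := (measure_mono (μ := Measure.infinitePi fun _ : V => π) hsub).trans
    (measure_union_le _ _)
  rw [hz, zero_add, measure_univ] at h1
  have h2 : ∀ k, (Measure.infinitePi fun _ : V => π) {ω | Good (G ω) k 0}ᶜ ≤
      ENNReal.ofReal (1 / 200 * (1 / 2) ^ k) := fun k => by
    rw [← ofReal_measureReal]
    exact ENNReal.ofReal_le_ofReal (prob_bad π hG hn hd h0 k 0)
  have h3 := h1.trans ((measure_iUnion_le _).trans (ENNReal.tsum_le_tsum h2))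
  have h4 := hasSum_geometric_two.mul_left (1 / 200 : ℝ)
  rw [← ENNReal.ofReal_tsum_of_nonneg (fun n => by positivity) h4.summable, h4.tsum_eq,
    ← ENNReal.ofReal_one, ENNReal.ofReal_le_ofReal_iff (by norm_num)] at h3
  norm_num at h3

end HierProb

end Pool.Agent.Lib.MP_04d7a1_pr
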