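import Mathlib
import Pool.Agent.Lib.MP_04d7a1_pr.Sub
import Pool.Agent.Lib.MP_04d7a1_pr.Hier

open MeasureTheory ProbabilityTheory Relation
open scoped ENNReal NNReal

namespace Pool.Agent.Lib.MP_04d7a1_pr

lemma conn_hor {S : Set V} {x y : ℤ} {L : ℕ} (h : ∀ j : ℕ, j ≤ L → (x + j, y) ∈ S) {c c' : ℤ}
    (h1 : x ≤ c) (h2 : c ≤ x + L) (h3 : x ≤ c') (h4 : c' ≤ x + L) : Conn S (c, y) (c', y) := by
  have key : ∀ j : ℕ, j ≤ L → Conn S (x, y) (x + j, y) := by
    intro j
    induction j with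
    | zero => intro _; simpa using ReflTransGen.refl
    | succ j ih =>
      intro hj
      refine ReflTransGen.tail (ih (by omega)) ⟨h j (by omega), h _ hj, ?_⟩
      simp
  have e1 : c = x + ((c - x).toNat : ℕ) := by omega
  have e2 : c' = x + ((c' - x).toNat : ℕ) := by omega
  rw [e1, e2]
  exact (conn_symm (key _ (by omega))).trans (key _ (by omega))

lemma conn_ver {S : Set V} {x y : ℤ} {L : ℕ} (h : ∀ j : ℕ, j ≤ L → (x, y + j) ∈ S) {c c' : ℤ}
    (h1 : y ≤ c) (h2 : c ≤ y + L) (h3 : y ≤ c') (h4 : c' ≤ y + L) : Conn S (x, c) (x, c') := by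
  have key : ∀ j : ℕ, j ≤ L → Conn S (x, y) (x, y + j) := by
    intro j
    induction j with
    | zero => intro _; simpa using ReflTransGen.refl
    | succ j ih =>
      intro hj
      refine ReflTransGen.tail (ih (by omega)) ⟨h j (by omega), h _ hj, ?_⟩
      simp
  have e1 : c = y + ((c - y).toNat : ℕ) := by omega
  have e2 : c' = y + ((c' - y).toNat : ℕ) := by omega
  rw [e1, e2]
  exact (conn_symm (key _ (by omega))).trans (key _ (by omega))

noncomputable def box1 (t : ℕ) (a : V) : Finset V :=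
  Finset.Ico (3 * t * a.1) (3 * t * a.1 + t) ×ˢ Finset.Ico (3 * t * a.2 + t) (3 * t * a.2 + 2 * t)

noncomputable def box2 (t : ℕ) (a : V) : Finset V :=
  Finset.Ico (3 * t * a.1 + t) (3 * t * a.1 + 2 * t) ×ˢ Finset.Ico (3 * t * a.2) (3 * t * a.2 + t)

lemma card_box1 (t : ℕ) (a : V) : (box1 t a).card = t * t := by
  rw [box1, Finset.card_product, Int.card_Ico, Int.card_Ico]
  congr 1 <;> omega

lemma card_box2 (t : ℕ) (a : V) : (box2 t a).card = t * t := by
  rw [box2, Finset.card_product, Int.card_Ico, Int.card_Ico]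
  congr 1 <;> omega

lemma transfer {S G : Set V} {t : ℕ} (ht : 0 < t)
    (hh : ∀ a ∈ G, ∃ x ∈ box1 t a, ∀ j : ℕ, j ≤ 6 * t → (x.1 + j, x.2) ∈ S)
    (hv : ∀ a ∈ G, ∃ x ∈ box2 t a, ∀ j : ℕ, j ≤ 6 * t → (x.1, x.2 + j) ∈ S)
    (hG : HasInfiniteCluster G) : HasInfiniteCluster S := by
  choose! h hb hS using hh
  choose! v vb vS using hv
  simp only [box1, box2, Finset.mem_product, Finset.mem_Ico] at hb vb
  let w : V → V := fun a => ((v a).1, (h a).2)
  have hor : ∀ a ∈ G, ∀ b ∈ G, b.1 = a.1 + 1 → b.2 = a.2 → Conn S (w a) (w b) := by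
    intro a ha b hb' h1 h2
    have A := hb a ha
    have B := hb b hb'
    have C := vb a ha
    have D := vb b hb'
    rw [h1, h2, mul_add] at B D
    have s1 : Conn S ((v a).1, (h a).2) ((v b).1, (h a).2) :=
      conn_hor (hS a ha) (by omega) (by push_cast; omega) (by omega) (by push_cast; omega)
    have s2 : Conn S ((v b).1, (h a).2) ((v b).1, (h b).2) :=
      conn_ver (vS b hb') (by omega) (by push_cast; omega) (by omega) (by push_cast; omega)
    exact s1.trans s2
  have ver : ∀ a ∈ G, ∀ b ∈ G, b.1 = a.1 → b.2 = a.2 + 1 → Conn S (w a) (w b) := by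
    intro a ha b hb' h1 h2
    have A := hb a ha
    have B := hb b hb'
    have C := vb a ha
    have D := vb b hb'
    rw [h1, h2, mul_add] at B D
    have s1 : Conn S ((v a).1, (h a).2) ((v a).1, (h b).2) :=
      conn_ver (vS a ha) (by omega) (by push_cast; omega) (by omega) (by push_cast; omega)
    have s2 : Conn S ((v a).1, (h b).2) ((v b).1, (h b).2) :=
      conn_hor (hS b hb') (by omega) (by push_cast; omega) (by omega) (by push_cast; omega)
    exact s1.trans s2
  have link : ∀ a b, step G a b → Conn S (w a) (w b) := by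
    rintro a b ⟨ha, hb', h⟩
    have hc : (b.1 = a.1 + 1 ∧ b.2 = a.2) ∨ (a.1 = b.1 + 1 ∧ a.2 = b.2) ∨
        (b.1 = a.1 ∧ b.2 = a.2 + 1) ∨ (a.1 = b.1 ∧ a.2 = b.2 + 1) := by
      rcases abs_cases (a.1 - b.1) with h1 | h1 <;> rcases abs_cases (a.2 - b.2) with h2 | h2 <;>
        omega
    rcases hc with h | h | h | h
    · exact hor a ha b hb' h.1 h.2
    · exact conn_symm (hor b hb' a ha h.1 h.2)
    · exact ver a ha b hb' h.1 h.2
    · exact conn_symm (ver b hb' a ha h.1 h.2)
  obtain ⟨x, hx, hinf⟩ := hG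
  have hall : ∀ y, Conn G x y → y ∈ G ∧ Conn S (w x) (w y) := by
    intro y hy
    induction hy with
    | refl => exact ⟨hx, .refl⟩
    | tail _ h2 ih => exact ⟨h2.2.1, ih.2.trans (link _ _ h2)⟩
  have hreg : ∀ a ∈ G, w a ∈ region (3 * t) a := by
    intro a ha
    have A := hb a ha
    have C := vb a ha
    simp only [region, w, Set.mem_ofPred_eq]
    omega
  refine hasInfiniteCluster_of_infinite (x := w x)
    (Set.infinite_of_injOn_mapsTo (f := w) ?_ (fun y hy => (hall y hy).2) hinf)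
  intro a ha b hb' hab
  by_contra hne
  have := region_disjoint (n := 3 * t) (by omega) hne
  rw [Set.disjoint_left] at this
  exact this (hreg a (hall a ha).1) (hab ▸ hreg b (hall b hb').1)

def longSet (t : ℕ) (d : Fin 4) : Set Mark := {m | m.1 = d ∧ 6 * t ≤ m.2}

def goodBlocks (t : ℕ) (ω : Omega) : Set V :=
  {a | (∃ x ∈ box1 t a, ∃ i < (ω x).1, (ω x).2 i ∈ longSet t 0) ∧
    (∃ x ∈ box2 t a, ∃ i < (ω x).1, (ω x).2 i ∈ longSet t 2)}

lemma measurable_goodBlocks (t : ℕ) (a : V) : Measurable fun ω : Omega => a ∈ goodBlocks t ω :=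
  Measurable.and
    (Measurable.exists fun x => measurable_const.and (measurable_site x (· ∈ longSet t 0)))
    (Measurable.exists fun x => measurable_const.and (measurable_site x (· ∈ longSet t 2)))

lemma depOn_goodBlocks (t : ℕ) (a : V) :
    DepOn {ω : Omega | a ∈ goodBlocks t ω} (region (3 * t) a) := by
  rintro ω ω' h ⟨⟨x, hx, h1⟩, ⟨y, hy, h2⟩⟩
  refine ⟨⟨x, hx, ?_⟩, ⟨y, hy, ?_⟩⟩
  · rw [← h x]
    · exact h1
    · simp only [box1, Finset.mem_product, Finset.mem_Ico] at hx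
      simp only [region, Set.mem_ofPred_eq]
      omega
  · rw [← h y]
    · exact h2
    · simp only [box2, Finset.mem_product, Finset.mem_Ico] at hy
      simp only [region, Set.mem_ofPred_eq]
      omega

lemma infinite_of_goodBlocks {t : ℕ} (ht : 0 < t) {ω : Omega}
    (h : HasInfiniteCluster (goodBlocks t ω)) : HasInfiniteCluster (occupied ω) := by
  refine transfer ht ?_ ?_ h
  · rintro a ⟨⟨x, hx, i, hi, h1, h2⟩, -⟩
    refine ⟨x, hx, fun j hj => ⟨x, i, hi, j, hj.trans h2, ?_⟩⟩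
    rw [h1]
    ext <;> simp [dir]
  · rintro a ⟨-, ⟨x, hx, i, hi, h1, h2⟩⟩
    refine ⟨x, hx, fun j hj => ⟨x, i, hi, j, hj.trans h2, ?_⟩⟩
    rw [h1]
    ext <;> simp [dir]

variable {μ : Measure ℕ} [IsProbabilityMeasure μ]

omit [IsProbabilityMeasure μ] in
lemma markLaw_longSet (t : ℕ) (d : Fin 4) :
    (markLaw μ).real (longSet t d) = 1 / 4 * μ.real (Set.Ici (6 * t)) := by
  have : longSet t d = {d} ×ˢ Set.Ici (6 * t) := by ext m; simp [longSet]
  rw [this, markLaw, measureReal_def, Measure.prod_prod, uniformOn_univ, ENNReal.toReal_mul]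
  simp [measureReal_def]

lemma prob_badBlock (lam : ℝ≥0) (t : ℕ) (a : V) :
    (law μ lam).real {ω | a ∈ goodBlocks t ω}ᶜ ≤
      2 * Real.exp (-((t * t : ℕ) * (lam * (1 / 4 * μ.real (Set.Ici (6 * t)))))) := by
  have hsub : {ω : Omega | a ∈ goodBlocks t ω}ᶜ ⊆
      {ω | ∀ x ∈ box1 t a, ∀ i < (ω x).1, (ω x).2 i ∉ longSet t 0} ∪
      {ω | ∀ x ∈ box2 t a, ∀ i < (ω x).1, (ω x).2 i ∉ longSet t 2} := by
    intro ω hω
    by_contra hc
    apply hω
    simp only [Set.mem_union, Set.mem_ofPred_eq, not_or] at hc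
    push Not at hc
    exact hc
  refine (measureReal_mono hsub (measure_ne_top _ _)).trans ((measureReal_union_le _ _).trans ?_)
  rw [measureReal_def, measureReal_def, law_eq,
    prob_avoid_finset _ _ _ (Set.to_countable _).measurableSet,
    prob_avoid_finset _ _ _ (Set.to_countable _).measurableSet,
    ENNReal.toReal_ofReal (Real.exp_pos _).le, ENNReal.toReal_ofReal (Real.exp_pos _).le,
    card_box1, card_box2, markLaw_longSet, markLaw_longSet]
  linarith

theorem percolation_of_block (lam : ℝ≥0) {t : ℕ} (ht : 0 < t)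
    (h : 1600 ≤ (t * t : ℕ) * (lam * μ.real (Set.Ici (6 * t)))) :
    0 < law μ lam {ω | HasInfiniteCluster (occupied ω)} := by
  refine lt_of_lt_of_le (site_percolation (siteLaw (markLaw μ) lam) (measurable_goodBlocks t)
    (n := 3 * t) (by omega) (depOn_goodBlocks t) fun a => ?_)
    (measure_mono fun ω hω => infinite_of_goodBlocks ht hω)
  refine (prob_badBlock lam t a).trans ?_
  set y : ℝ := (t * t : ℕ) * (lam * (1 / 4 * μ.real (Set.Ici (6 * t)))) with hy
  have h1 : 400 ≤ y := by rw [hy]; linarith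
  have h2 := Real.add_one_le_exp y
  rw [Real.exp_neg]
  have h3 : (Real.exp y)⁻¹ ≤ 400⁻¹ := inv_anti₀ (by norm_num) (by linarith)
  linarith

theorem critical_eq_zero (h : ¬ ∃ C : ℝ≥0, ∀ t : ℕ, (t : ℝ≥0∞) ^ 2 * μ (Set.Ioi t) ≤ C) :
    critical μ = 0 := by
  have key : ∀ lam : ℝ≥0, 0 < lam → 0 < law μ lam {ω | HasInfiniteCluster (occupied ω)} := by
    intro lam hlam
    push Not at h
    obtain ⟨r, hr⟩ := h (36 + 144 * 1600 / lam)
    have hr' : (36 + 144 * 1600 / lam : ℝ) < (r : ℝ) ^ 2 * μ.real (Set.Ioi r) := by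
      have := (ENNReal.toReal_lt_toReal (by finiteness) (by finiteness)).2 hr
      rw [ENNReal.coe_toReal] at this
      simpa [measureReal_def] using this
    have hl : (0 : ℝ) < lam := hlam
    have hd : (0 : ℝ) < 144 * 1600 / lam := by positivity
    have hm1 : μ.real (Set.Ioi r) ≤ 1 := measureReal_le_one
    have hm0 : 0 ≤ μ.real (Set.Ioi r) := measureReal_nonneg
    have hr6 : 6 ≤ r := by
      by_contra hc
      have : (r : ℝ) ≤ 6 := by exact_mod_cast (by omega : r ≤ 6)
      have : (r : ℝ) ^ 2 ≤ 36 := by nlinarith [Nat.cast_nonneg (α := ℝ) r]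
      nlinarith
    refine percolation_of_block lam (t := r / 6) (by omega) ?_
    have h1 : μ.real (Set.Ioi r) ≤ μ.real (Set.Ici (6 * (r / 6))) :=
      measureReal_mono (fun n hn => by simp only [Set.mem_Ioi, Set.mem_Ici] at hn ⊢; omega)
    have h2 : (r : ℝ) ≤ 12 * ((r / 6 : ℕ) : ℝ) := by exact_mod_cast (by omega : r ≤ 12 * (r / 6))
    have h3 : (r : ℝ) ^ 2 ≤ 144 * (((r / 6 : ℕ) : ℝ) * ((r / 6 : ℕ) : ℝ)) := by
      nlinarith [Nat.cast_nonneg (α := ℝ) r]
    have h4 : 144 * 1600 / (lam : ℝ) ≤ 144 * (((r / 6 : ℕ) : ℝ) * ((r / 6 : ℕ) : ℝ)) *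
        μ.real (Set.Ici (6 * (r / 6))) := by
      have := mul_le_mul h3 h1 hm0 (by positivity)
      linarith
    rw [div_le_iff₀ hl] at h4
    rw [Nat.cast_mul]
    nlinarith
  refine le_antisymm (ENNReal.le_of_forall_pos_le_add fun ε hε _ => ?_) zero_le
  rw [zero_add]
  exact iInf_le_of_le ε (iInf_le_of_le hε (iInf_le_of_le (key ε hε) le_rfl))

theorem critical_lt_top : critical μ < ⊤ := by
  have key : 0 < law μ 200 {ω | HasInfiniteCluster (occupied ω)} := by
    let G : Omega → Set V := fun ω => {a | ∃ i < (ω a).1, (ω a).2 i ∈ (Set.univ : Set Mark)}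
    refine lt_of_lt_of_le (site_percolation (siteLaw (markLaw μ) 200) (G := G)
      (fun a => measurable_site a (· ∈ (Set.univ : Set Mark))) (n := 1) one_pos ?_ fun a => ?_)
      (measure_mono fun ω hω => HasInfiniteCluster.of_finite_diff hω ?_)
    · intro a ω ω' h hω
      have : ω a = ω' a := h a (by simp [region])
      simp only [G, Set.mem_ofPred_eq] at hω ⊢
      rwa [← this]
    · have : {ω : Omega | a ∈ G ω}ᶜ =
          {ω | ∀ x ∈ ({a} : Finset V), ∀ i < (ω x).1, (ω x).2 i ∉ (Set.univ : Set Mark)} := by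
        ext ω; simp [G]
      rw [this, measureReal_def, prob_avoid_finset _ _ _ MeasurableSet.univ,
        ENNReal.toReal_ofReal (Real.exp_pos _).le]
      have h2 := Real.add_one_le_exp 200
      simp only [Finset.card_singleton, Nat.cast_one, NNReal.coe_ofNat, probReal_univ, mul_one,
        one_mul, Real.exp_neg, one_div]
      exact inv_anti₀ (by norm_num) (by linarith)
    · have : G ω \ occupied ω = ∅ := by
        rw [Set.sdiff_eq_empty]
        rintro a ⟨i, hi, -⟩
        exact ⟨a, i, hi, 0, Nat.zero_le _, by simp⟩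
      rw [this]
      exact Set.finite_empty
  exact lt_of_le_of_lt (iInf_le_of_le 200 (iInf_le_of_le (by norm_num)
    (iInf_le_of_le key le_rfl))) ENNReal.coe_lt_top

theorem critical_pos_iff :
    0 < critical μ ↔ ∃ C : ℝ≥0, ∀ t : ℕ, (t : ℝ≥0∞) ^ 2 * μ (Set.Ioi t) ≤ C := by
  refine ⟨fun h => ?_, fun ⟨_, hC⟩ => critical_pos hC⟩
  by_contra hc
  exact h.ne' (critical_eq_zero hc)

end Pool.Agent.Lib.MP_04d7a1_pr
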